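import Pool.Agent.Helper478_Joint.ET

/-!
# Boxes in high dimension: explicit comparison
-/

set_option autoImplicit false

namespace Pool.Agent.Helper478.Rand

open Finset Filter
open Pool.Agent.H469R2.NK (e norm_e e_add e_zero conj_e)
open Pool.Agent.Helper478.Kwise (TPm gg gg_upper gg_lower tpm_gg ind ind_nonneg ind_le_one)
open Pool.Agent.Helper478.Joint (prod_sum)

/-- upper approximations -/
lemma upper (δ : ℝ) (h0 : 0 < δ) (h1 : δ ≤ 1) (K : ℕ) (hK : 1 ≤ K) (hc : 1 ≤ K * δ ^ 2) :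
    ∀ α β : ℝ, 0 ≤ α → α ≤ β → β ≤ 1 → ∃ U : ℝ → ℝ, (∀ x, ind α β x ≤ U x) ∧
      TPm K (2 * (1 + Real.log K)) ((β - α + 3 * δ : ℝ) : ℂ) (fun x => (U x : ℂ)) := by
  have hK1 : (1 : ℝ) ≤ K := by exact_mod_cast hK
  have hK0 : (0 : ℝ) < K := by linarith
  obtain ⟨c, hcd⟩ : ∃ c : ℝ, c = 1 / (K * δ) := ⟨_, rfl⟩
  have hc0 : 0 ≤ c := by rw [hcd]; positivity
  have hc1 : c ≤ δ := by
    rw [hcd, div_le_iff₀ (by positivity)]
    nlinarith
  have hlogK : 0 ≤ Real.log K := Real.log_natCast_nonneg K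
  have hg := tpm_gg K hK δ h0
  have key : ∀ s : ℝ, TPm K (1 + Real.log K) 0 (fun x => (gg K δ (x + s) : ℂ)) := fun s =>
    hg.shift s
  intro α β hα hαβ hβ
  rcases hαβ.lt_or_eq with hlt | heq
  · refine ⟨fun x => (β - α) + gg K δ (x + -β) + -gg K δ (x + (-α + δ)) + 3 * δ, ?_, ?_⟩
    · intro x
      have e1 := gg_upper K hK δ h0 h1 (x - β)
      have e2 := gg_lower K hK δ h0 h1 (x - α)
      have e3 := Pool.Agent.R485.Trans.indicator_eq x _ _ hα hlt hβ
      unfold ind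
      rw [← hcd] at e1 e2
      have e4 : x - α + δ = x + (-α + δ) := by ring
      have e5 : x - β = x + -β := by ring
      rw [e4] at e2
      rw [e5] at e1
      rw [e5] at e3
      simp only
      linarith
    · have h2 := ((((TPm.const K (((β - α : ℝ)) : ℂ)).add (key (-β))).add (key (-α + δ)).neg).add
        (TPm.const K ((3 * δ : ℝ) : ℂ)))
      have h3 : ((β - α : ℝ) : ℂ) + 0 + -0 + ((3 * δ : ℝ) : ℂ) = ((β - α + 3 * δ : ℝ) : ℂ) := by
        push_cast; ring
      rw [h3] at h2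
      refine TPm.mono (A := 0 + (1 + Real.log K) + (1 + Real.log K) + 0) ?_ le_rfl (by linarith)
      convert h2 using 2 with x
      push_cast
      ring
  · refine ⟨fun x => 3 * δ, ?_, ?_⟩
    · intro x
      have : ind α β x = 0 := by
        unfold ind
        rw [if_neg]
        rw [heq]
        intro h
        linarith [h.1, h.2]
      rw [this]; positivity
    · rw [heq]
      have h2 := TPm.const K ((3 * δ : ℝ) : ℂ)
      rw [show β - β + 3 * δ = 3 * δ by ring]
      exact h2.mono le_rfl (by positivity)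

/-- **comparison for boxes** -/
theorem box_explicit (r : ℕ) (δ : ℝ) (hδ0 : 0 < δ) (hδ1 : δ ≤ 1) (K : ℕ) (hK : 1 ≤ K)
    (hc : 1 ≤ K * δ ^ 2) (σ : Type) (S : Finset σ) (x : σ → Fin r → ℝ) (W : ℝ) (hW0 : 0 ≤ W)
    (hx : ∀ Z : Fin r → ℤ, Z ≠ 0 → (∀ j, |Z j| ≤ K) → ‖∑ n ∈ S, e (∑ j, Z j * x n j)‖ ≤ W)
    (p q : Fin r → ℝ) (hpq : ∀ j, 0 ≤ p j ∧ p j ≤ q j ∧ q j ≤ 1) :
    |(((S.filter fun n => ∀ j, p j ≤ Int.fract (x n j) ∧ Int.fract (x n j) < q j).card : ℕ) : ℝ) -
      S.card * ∏ j, (q j - p j)| ≤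
        ((1 + 9 * δ) ^ r - 1) * S.card + (3 * (6 + 2 * Real.log K)) ^ r * W := by
  classical
  have hup := upper δ hδ0 hδ1 K hK hc
  have hlogK : 0 ≤ Real.log K := Real.log_natCast_nonneg K
  obtain ⟨A, hA⟩ : ∃ A : ℝ, A = 2 * (1 + Real.log K) := ⟨_, rfl⟩
  rw [← hA] at hup
  have hA0 : 0 ≤ A := by rw [hA]; positivity
  obtain ⟨B, hB⟩ : ∃ B : ℝ, B = A + 4 := ⟨_, rfl⟩
  have hB0 : 0 < B := by rw [hB]; linarith
  have hB2 : 6 + 2 * Real.log K = B := by rw [hB, hA]; ring
  rw [hB2, mul_pow, mul_assoc]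
  let lo : Fin r → Fin 3 → ℝ := fun j => ![0, p j, q j]
  let hi : Fin r → Fin 3 → ℝ := fun j => ![p j, q j, 1]
  have hlohi : ∀ j c, 0 ≤ lo j c ∧ lo j c ≤ hi j c ∧ hi j c ≤ 1 := by
    intro j c
    obtain ⟨a1, a2, a3⟩ := hpq j
    fin_cases c
    · simp only [lo, hi]; exact ⟨le_rfl, a1, a2.trans a3⟩
    · simp only [lo, hi]; exact ⟨a1, a2, a3⟩
    · simp only [lo, hi]; exact ⟨a1.trans a2, a3, le_rfl⟩
  have hsum1 : ∀ j, ∑ c, (hi j c - lo j c) = 1 := by
    intro j
    rw [Fin.sum_univ_three]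
    show (p j - 0) + (q j - p j) + (1 - q j) = 1
    ring
  have hsum2 : ∀ j y, ∑ c, ind (lo j c) (hi j c) y = 1 := by
    intro j y
    obtain ⟨a1, a2, a3⟩ := hpq j
    have b1 := Int.fract_nonneg y
    have b2 := Int.fract_lt_one y
    rw [Fin.sum_univ_three]
    show ind 0 (p j) y + ind (p j) (q j) y + ind (q j) 1 y = 1
    unfold ind
    rcases lt_or_ge (Int.fract y) (p j) with c1 | c1
    · rw [if_pos ⟨b1, c1⟩, if_neg (fun h => absurd h.1 (not_le.2 c1)),
        if_neg (fun h => absurd h.1 (not_le.2 (c1.trans_le a2)))]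
      ring
    · rcases lt_or_ge (Int.fract y) (q j) with c2 | c2
      · rw [if_neg (fun h => absurd h.2 (not_lt.2 c1)), if_pos ⟨c1, c2⟩,
          if_neg (fun h => absurd h.1 (not_le.2 c2))]
        ring
      · rw [if_neg (fun h => absurd h.2 (not_lt.2 c1)), if_neg (fun h => absurd h.2 (not_lt.2 c2)),
          if_pos ⟨c2, b2⟩]
        ring
  have happ : ∀ j c, ∃ U : ℝ → ℝ, (∀ y, ind (lo j c) (hi j c) y ≤ U y) ∧
      TPm K A ((hi j c - lo j c + 3 * δ : ℝ) : ℂ) (fun y => (U y : ℂ)) := fun j c =>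
    hup _ _ (hlohi j c).1 (hlohi j c).2.1 (hlohi j c).2.2
  choose U hU1 hU2 using happ
  let cnt : (Fin r → Fin 3) → ℝ := fun f => ∑ n ∈ S, ∏ j, ind (lo j (f j)) (hi j (f j)) (x n j)
  let g : (Fin r → Fin 3) → ℝ := fun f => ∏ j, (hi j (f j) - lo j (f j) + 3 * δ)
  let g0 : (Fin r → Fin 3) → ℝ := fun f => ∏ j, (hi j (f j) - lo j (f j))
  have hcnt : ∀ f, cnt f ≤ S.card * g f + B ^ r * W := by
    intro f
    have h := prod_sum S x K A B (fun j => hi j (f j) - lo j (f j) + 3 * δ) (fun j => U j (f j))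
      (fun j => hU2 j (f j)) (by
        intro j
        obtain ⟨a1, a2, a3⟩ := hlohi j (f j)
        rw [abs_of_nonneg (by linarith), hB]
        linarith) W hW0 hx
    have h2 : ∑ n ∈ S, ∏ j, (U j (f j) (x n j) : ℂ) - S.card * ∏ j,
        ((hi j (f j) - lo j (f j) + 3 * δ : ℝ) : ℂ) =
        ((∑ n ∈ S, ∏ j, U j (f j) (x n j) - S.card * g f : ℝ) : ℂ) := by
      simp only [g]
      push_cast
      rfl
    rw [h2, Complex.norm_real, Real.norm_eq_abs] at h
    have h3 : cnt f ≤ ∑ n ∈ S, ∏ j, U j (f j) (x n j) := by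
      refine sum_le_sum fun n _ => ?_
      exact prod_le_prod (fun j _ => ind_nonneg _ _ _) fun j _ => hU1 _ _ _
    have h4 := (abs_le.1 h).2
    linarith
  have hcs : ∑ f, cnt f = S.card := by
    simp only [cnt]
    rw [sum_comm]
    have : ∀ n, ∑ f : Fin r → Fin 3, ∏ j, ind (lo j (f j)) (hi j (f j)) (x n j) = 1 := by
      intro n
      have h := Finset.prod_univ_sum (fun _ : Fin r => (univ : Finset (Fin 3)))
        (fun j c => ind (lo j c) (hi j c) (x n j))
      rw [Fintype.piFinset_univ] at h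
      rw [← h]
      exact prod_eq_one fun j _ => hsum2 j (x n j)
    simp_rw [this]
    simp
  have hgs : ∑ f, g f = (1 + 9 * δ) ^ r := by
    simp only [g]
    have h := Finset.prod_univ_sum (fun _ : Fin r => (univ : Finset (Fin 3)))
      (fun j c => hi j c - lo j c + 3 * δ)
    rw [Fintype.piFinset_univ] at h
    rw [← h]
    have : ∀ j, ∑ c, (hi j c - lo j c + 3 * δ) = 1 + 9 * δ := by
      intro j
      rw [sum_add_distrib, hsum1]
      simp
      ring
    simp_rw [this]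
    simp
  have hg0s : ∑ f, g0 f = 1 := by
    simp only [g0]
    have h := Finset.prod_univ_sum (fun _ : Fin r => (univ : Finset (Fin 3)))
      (fun j c => hi j c - lo j c)
    rw [Fintype.piFinset_univ] at h
    rw [← h]
    exact prod_eq_one fun j _ => hsum1 j
  have hg0g : ∀ f, g0 f ≤ g f := by
    intro f
    refine prod_le_prod (fun j _ => ?_) fun j _ => ?_
    · linarith [(hlohi j (f j)).2.1]
    · linarith
  let o : Fin r → Fin 3 := fun _ => 1
  have hco : cnt o = (((S.filter fun n => ∀ j, p j ≤ Int.fract (x n j) ∧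
      Int.fract (x n j) < q j).card : ℕ) : ℝ) := by
    simp only [cnt, o, lo, hi, Matrix.cons_val_one, Matrix.cons_val]
    rw [card_filter]
    push_cast
    refine sum_congr rfl fun n _ => ?_
    unfold ind
    split_ifs with h
    · exact prod_eq_one fun j _ => if_pos (h j)
    · push Not at h
      obtain ⟨j, hj⟩ := h
      exact prod_eq_zero (mem_univ j) (if_neg fun h => absurd h.2 (not_lt.2 (hj h.1)))
  have hgo : g0 o = ∏ j, (q j - p j) := by
    simp only [g0, o, lo, hi, Matrix.cons_val_one, Matrix.cons_val]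
  rw [← hco, ← hgo]
  obtain ⟨D, hD⟩ : ∃ D : ℝ, D = (1 + 9 * δ) ^ r - 1 := ⟨_, rfl⟩
  have hDr : (1 + 9 * δ) ^ r = 1 + D := by rw [hD]; ring
  rw [← hD]
  rw [hDr] at hgs
  have hgap : ∑ f, (g f - g0 f) ≤ D := by
    rw [sum_sub_distrib, hgs, hg0s]; linarith
  have hgap1 : g o - g0 o ≤ D :=
    (single_le_sum (f := fun f => g f - g0 f) (fun f _ => by have := hg0g f; linarith)
      (mem_univ o)).trans hgap
  have hBW0 : 0 ≤ B ^ r * W := by positivity
  have h3r : (1 : ℝ) ≤ 3 ^ r := one_le_pow₀ (by norm_num)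
  have hS0 : (0 : ℝ) ≤ S.card := Nat.cast_nonneg _
  rw [abs_le]
  constructor
  · have h1 := sum_erase_eq_sub (f := cnt) (mem_univ o)
    have h2 := sum_erase_eq_sub (f := g) (mem_univ o)
    have h3 : ∑ f ∈ univ.erase o, cnt f ≤ ∑ f ∈ univ.erase o, (S.card * g f + B ^ r * W) :=
      sum_le_sum fun f _ => hcnt f
    rw [sum_add_distrib, ← mul_sum, sum_const, nsmul_eq_mul, h1, h2, hcs, hgs] at h3
    have h4 : (((univ.erase o : Finset (Fin r → Fin 3)).card : ℕ) : ℝ) ≤ 3 ^ r := by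
      have : (univ.erase o : Finset (Fin r → Fin 3)).card ≤ 3 ^ r := by
        refine (card_erase_le).trans ?_
        rw [card_univ]; simp
      exact_mod_cast this
    have h5 := mul_le_mul_of_nonneg_right h4 hBW0
    have h6 := hg0g o
    have h7 : (S.card : ℝ) * (1 + D - g o) ≤ S.card * (1 + D - g0 o) := by
      apply mul_le_mul_of_nonneg_left _ hS0
      linarith
    have h8 : (S.card : ℝ) * (1 + D - g0 o) = S.card + D * S.card - S.card * g0 o := by ring
    linarith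
  · have h1 := hcnt o
    have h2 : (S.card : ℝ) * g o ≤ S.card * (g0 o + D) := by
      apply mul_le_mul_of_nonneg_left _ hS0
      linarith
    have h3 : B ^ r * W ≤ 3 ^ r * (B ^ r * W) := le_mul_of_one_le_left hBW0 h3r
    have h4 : (S.card : ℝ) * (g0 o + D) = S.card * g0 o + D * S.card := by ring
    linarith

end Pool.Agent.Helper478.Rand
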