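import Pool.Agent.Helper478_Rand.Box
import Pool.Agent.Helper478_Bases.BdAbs

/-!
# The first digits of a number in a random base
-/

set_option autoImplicit false

namespace Pool.Agent.Helper478.Rand

open Finset Filter Polynomial
open Pool.Agent.H469R2.NK (e norm_e e_add e_zero conj_e)
open Pool.Agent.Helper478.Bases (WeylBd weylBd_abs)

/-- the polynomial of a vector of frequencies -/
lemma poly_of (n : ℕ) (x : ℝ) (hx : x ≠ 0) (Z : Fin n → ℤ) (hZ : Z ≠ 0) : ∃ (P : ℝ[X]) (j₀ : Fin n),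
    Z j₀ ≠ 0 ∧ P.natDegree = (j₀ : ℕ) + 1 ∧ P.leadingCoeff = Z j₀ * x ∧
      ∀ r : ℝ, P.eval r = ∑ j, (Z j : ℝ) * (x * r ^ ((j : ℕ) + 1)) := by
  classical
  have hne : (univ.filter fun j => Z j ≠ 0).Nonempty := by
    by_contra h
    rw [not_nonempty_iff_eq_empty] at h
    apply hZ
    funext j
    by_contra hj
    have : j ∈ (univ.filter fun j => Z j ≠ 0) := by simp only [mem_filter, mem_univ, true_and]; exact hj
    rw [h] at this
    exact absurd this (notMem_empty _)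
  obtain ⟨j₀, hj₀, hmax⟩ := exists_max_image _ (fun j : Fin n => j) hne
  rw [mem_filter] at hj₀
  have hz : ∀ j, j₀ < j → Z j = 0 := by
    intro j hj
    by_contra h
    have := hmax j (by simp only [mem_filter, mem_univ, true_and]; exact h)
    exact absurd hj (not_lt.2 this)
  let P : ℝ[X] := ∑ j : Fin n, C ((Z j : ℝ) * x) * X ^ ((j : ℕ) + 1)
  have hcoeff : ∀ k, P.coeff k = ∑ j : Fin n, if k = (j : ℕ) + 1 then (Z j : ℝ) * x else 0 := by
    intro k
    simp only [P, finset_sum_coeff, coeff_C_mul_X_pow]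
  have hc0 : P.coeff ((j₀ : ℕ) + 1) = Z j₀ * x := by
    rw [hcoeff, sum_eq_single j₀]
    · rw [if_pos rfl]
    · intro j _ hj
      rw [if_neg]
      intro h
      apply hj
      apply Fin.ext
      omega
    · intro h; exact absurd (mem_univ _) h
  have hc1 : P.coeff ((j₀ : ℕ) + 1) ≠ 0 := by
    rw [hc0]
    exact mul_ne_zero (by exact_mod_cast hj₀.2) hx
  have hdeg : P.natDegree = (j₀ : ℕ) + 1 := by
    apply le_antisymm
    · rw [natDegree_le_iff_coeff_eq_zero]
      intro k hk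
      rw [hcoeff]
      apply sum_eq_zero
      intro j _
      split_ifs with h
      · have : j₀ < j := by
          rw [Fin.lt_def]; omega
        rw [hz j this]; simp
      · rfl
    · exact le_natDegree_of_ne_zero hc1
  refine ⟨P, j₀, hj₀.2, hdeg, ?_, ?_⟩
  · rw [leadingCoeff, hdeg, hc0]
  · intro r
    simp only [P, eval_finset_sum, eval_mul, eval_C, eval_pow, eval_X]
    refine sum_congr rfl fun j _ => ?_
    ring

/-- **boxes** -/
theorem rand_box (a : ℕ) (ha : 2 ≤ a) : ∃ κ : ℕ, ∀ (x : ℝ) (d : ℕ) (C : ℝ), 1 ≤ d → 0 ≤ C →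
    (∀ q : ℕ, 1 ≤ q → ∀ p : ℤ, 1 ≤ C * (q : ℝ) ^ (d - 1) * |q * x - p|) →
    ∃ n₀ : ℕ, ∀ n R : ℕ, n₀ ≤ n → (n : ℝ) ^ κ ≤ Real.log R → ∀ p q : Fin n → ℝ,
    (∀ j, 0 ≤ p j ∧ p j ≤ q j ∧ q j ≤ 1) →
    |(({r : ℕ | 1 ≤ r ∧ r ≤ R ∧ ∀ j : Fin n, p j ≤ Int.fract (x * (r : ℝ) ^ ((j : ℕ) + 1)) ∧
      Int.fract (x * (r : ℝ) ^ ((j : ℕ) + 1)) < q j}.ncard : ℕ) : ℝ) - R * ∏ j, (q j - p j)| ≤
        Real.exp (-(n : ℝ) ^ a) * R := by
  classical
  obtain ⟨κ₀, hκ₀, hW⟩ := weylBd_abs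
  refine ⟨(a + 1) * κ₀, ?_⟩
  intro x d C hd hC hdio
  obtain ⟨n₁, hn₁⟩ := hW d 1 d hd le_rfl
  -- eventual inequalities
  have ev1 : ∀ᶠ n : ℕ in atTop, Real.log 48 + a * Real.log n ≤ n := by
    have h1 : Tendsto (fun y : ℝ => y * Real.exp (-y)) atTop (nhds 0) := by
      have := Real.tendsto_pow_mul_exp_neg_atTop_nhds_zero 1
      simpa using this
    have h2 : ∀ᶠ y : ℝ in atTop, Real.log 48 + a * y ≤ Real.exp y := by
      have h3 : Tendsto (fun y : ℝ => Real.log 48 * Real.exp (-y) + a * (y * Real.exp (-y))) atTop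
          (nhds (Real.log 48 * 0 + a * 0)) := by
        refine Tendsto.add (Tendsto.const_mul _ ?_) (Tendsto.const_mul _ h1)
        exact Real.tendsto_exp_neg_atTop_nhds_zero
      rw [mul_zero, mul_zero, add_zero] at h3
      filter_upwards [h3.eventually (ge_mem_nhds one_pos)] with y hy
      have h4 : Real.log 48 * Real.exp (-y) + a * (y * Real.exp (-y)) =
          (Real.log 48 + a * y) / Real.exp y := by
        rw [Real.exp_neg]; field_simp
      rw [h4, div_le_one (Real.exp_pos _)] at hy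
      exact hy
    have h5 : Tendsto (fun n : ℕ => Real.log n) atTop atTop :=
      Real.tendsto_log_atTop.comp tendsto_natCast_atTop_atTop
    filter_upwards [h5.eventually h2, eventually_ge_atTop 1] with n hn hn1
    rwa [Real.exp_log (by exact_mod_cast (by omega : 0 < n))] at hn
  have ev2 : ∀ᶠ n : ℕ in atTop, C ≤ Real.exp n :=
    (Real.tendsto_exp_atTop.comp tendsto_natCast_atTop_atTop).eventually (eventually_ge_atTop C)
  obtain ⟨n₀, hn₀⟩ := eventually_atTop.1 ((ev1.and ev2).and (eventually_ge_atTop (max n₁ 36)))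
  refine ⟨n₀, ?_⟩
  intro n R hn hR p q hpq
  obtain ⟨⟨q1, q2⟩, q3⟩ := hn₀ n hn
  have hn36 : 36 ≤ n := (le_max_right _ _).trans q3
  have hnn₁ : n₁ ≤ n := (le_max_left _ _).trans q3
  have hn1 : (1 : ℝ) ≤ n := by exact_mod_cast (by omega : 1 ≤ n)
  have hn36' : (36 : ℝ) ≤ n := by exact_mod_cast hn36
  have hn0 : (0 : ℝ) < n := by linarith
  obtain ⟨y, hy⟩ : ∃ y : ℝ, y = (n : ℝ) ^ a := ⟨_, rfl⟩
  have hny : (n : ℝ) * n ≤ y := by
    rw [hy]
    calc (n : ℝ) * n = (n : ℝ) ^ 2 := by ring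
      _ ≤ (n : ℝ) ^ a := pow_le_pow_right₀ hn1 ha
  have hny1 : (n : ℝ) ≤ y := by nlinarith
  have hy1 : 36 ≤ y := by linarith
  obtain ⟨n', hn'⟩ : ∃ n' : ℕ, n' = 8 * n ^ a := ⟨_, rfl⟩
  have hn'r : (n' : ℝ) = 8 * y := by rw [hn', hy]; push_cast; ring
  have hnn' : n ≤ n' := by
    have : (n : ℝ) ≤ n' := by rw [hn'r]; linarith
    exact_mod_cast this
  have hR' : (n' : ℝ) ^ κ₀ ≤ Real.log R := by
    refine le_trans ?_ hR
    rw [pow_mul]
    apply pow_le_pow_left₀ (Nat.cast_nonneg _)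
    rw [hn'r, hy, pow_succ]
    have : (0 : ℝ) ≤ (n : ℝ) ^ a := by positivity
    nlinarith
  -- the frequencies
  obtain ⟨δ, hδ⟩ : ∃ δ : ℝ, δ = Real.exp (-(2 * y)) := ⟨_, rfl⟩
  have hδ0 : 0 < δ := by rw [hδ]; exact Real.exp_pos _
  have hδ1 : δ ≤ 1 := by rw [hδ]; apply Real.exp_le_one_iff.2; linarith
  obtain ⟨K, hK⟩ : ∃ K : ℕ, K = ⌈Real.exp (4 * y)⌉₊ := ⟨_, rfl⟩
  have hK1 : Real.exp (4 * y) ≤ K := by rw [hK]; exact Nat.le_ceil _
  have he1 : 1 ≤ Real.exp (4 * y) := Real.one_le_exp (by linarith)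
  have hK2 : (K : ℝ) ≤ 2 * Real.exp (4 * y) := by
    have := Nat.ceil_lt_add_one (Real.exp_pos (4 * y)).le
    rw [← hK] at this
    linarith
  have hK3 : 1 ≤ K := by
    have : (1 : ℝ) ≤ K := he1.trans hK1
    exact_mod_cast this
  have hK0 : (0 : ℝ) < K := by exact_mod_cast hK3
  have hc : 1 ≤ K * δ ^ 2 := by
    have h1 : δ ^ 2 = Real.exp (-(4 * y)) := by
      rw [hδ, ← Real.exp_nat_mul]; congr 1; push_cast; ring
    rw [h1]
    calc (1 : ℝ) = Real.exp (4 * y) * Real.exp (-(4 * y)) := by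
          rw [← Real.exp_add, add_neg_cancel, Real.exp_zero]
      _ ≤ K * Real.exp (-(4 * y)) := by gcongr
  have hlogK : Real.log K ≤ 4 * y + 1 := by
    have h1 : Real.log K ≤ Real.log (2 * Real.exp (4 * y)) := Real.log_le_log hK0 hK2
    rw [Real.log_mul (by norm_num) (Real.exp_pos _).ne', Real.log_exp] at h1
    have := Real.log_two_lt_d9
    linarith
  have hlogK0 : 0 ≤ Real.log K := Real.log_natCast_nonneg K
  -- the sums
  have hx0 : x ≠ 0 := by
    rintro rfl
    have := hdio 1 le_rfl 0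
    simp at this
    linarith
  obtain ⟨W, hW'⟩ : ∃ W : ℝ, W = R * Real.exp (-(3 * y)) := ⟨_, rfl⟩
  have hW0 : 0 ≤ W := by rw [hW']; positivity
  have h256 : Real.exp (3 * y) ≤ (2 : ℝ) ^ n' := by
    have h1 : Real.exp (3 * y) = (Real.exp 3) ^ (n ^ a) := by
      rw [← Real.exp_nat_mul]; congr 1; rw [hy]; push_cast; ring
    have h2 : Real.exp 3 ≤ 256 := by
      have h3 : Real.exp 3 = (Real.exp 1) ^ 3 := by rw [← Real.exp_nat_mul]; norm_num
      rw [h3]
      have := Real.exp_one_lt_d9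
      calc (Real.exp 1) ^ 3 ≤ (3 : ℝ) ^ 3 := by gcongr; linarith
        _ ≤ 256 := by norm_num
    rw [h1, hn', pow_mul]
    apply pow_le_pow_left₀ (Real.exp_pos _).le
    norm_num
    exact h2
  have hsum : ∀ Z : Fin n → ℤ, Z ≠ 0 → (∀ j, |Z j| ≤ K) →
      ‖∑ r ∈ Ioc 0 R, e (∑ j, Z j * (x * (r : ℝ) ^ ((j : ℕ) + 1)))‖ ≤ W := by
    intro Z hZ0 hZ
    obtain ⟨P, j₀, hj₀, hdeg, hlead, heval⟩ := poly_of n x hx0 Z hZ0
    simp_rw [← heval]
    obtain ⟨h, hh⟩ : ∃ h : ℕ, h = (Z j₀).natAbs := ⟨_, rfl⟩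
    have hh1 : 1 ≤ h := by rw [hh]; exact Int.natAbs_pos.2 hj₀
    have hhK : h ≤ K := by
      have := hZ j₀
      rw [Int.abs_eq_natAbs, ← hh] at this
      exact_mod_cast this
    have hh0 : (0 : ℝ) < h := by exact_mod_cast hh1
    have hdio' : ∀ q : ℕ, 1 ≤ q → ∀ p : ℤ,
        1 ≤ Real.exp ((d : ℝ) * n') * (q : ℝ) ^ (d - 1) * |q * (h * x) - p| := by
      intro q hq p
      have g1 := hdio (q * h) (Nat.mul_pos hq hh1) p
      have g2 : ((q * h : ℕ) : ℝ) * x - p = q * (h * x) - p := by push_cast; ring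
      rw [g2] at g1
      refine g1.trans ?_
      apply mul_le_mul_of_nonneg_right _ (abs_nonneg _)
      have g3 : C * ((q * h : ℕ) : ℝ) ^ (d - 1) = (C * (h : ℝ) ^ (d - 1)) * (q : ℝ) ^ (d - 1) := by
        push_cast; rw [mul_pow]; ring
      rw [g3]
      apply mul_le_mul_of_nonneg_right _ (by positivity)
      have g4 : C ≤ Real.exp n' := q2.trans (Real.exp_le_exp.2 (by exact_mod_cast hnn'))
      have g5 : (h : ℝ) ≤ Real.exp n' := by
        have f1 : (h : ℝ) ≤ K := by exact_mod_cast hhK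
        refine f1.trans (hK2.trans ?_)
        have f2 : (2 : ℝ) ≤ Real.exp 1 := by have := Real.exp_one_gt_d9; linarith
        calc 2 * Real.exp (4 * y) ≤ Real.exp 1 * Real.exp (4 * y) := by gcongr
          _ = Real.exp (1 + 4 * y) := by rw [← Real.exp_add]
          _ ≤ Real.exp n' := Real.exp_le_exp.2 (by rw [hn'r]; linarith)
      calc C * (h : ℝ) ^ (d - 1) ≤ Real.exp n' * (Real.exp n') ^ (d - 1) := by gcongr
        _ = (Real.exp n') ^ d := by rw [← pow_succ', Nat.sub_add_cancel hd]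
        _ = Real.exp ((d : ℝ) * n') := by rw [← Real.exp_nat_mul]
    obtain ⟨W', hW'0, hWB, hW'R⟩ := hn₁ n' R (hnn₁.trans hnn') hR' (h * x) hdio' 1 le_rfl le_rfl
    have g1 := hWB P (by rw [hdeg]; omega) (by rw [hdeg]; omega) (by
      rw [hlead]
      rcases Int.natAbs_eq (Z j₀) with h1 | h1
      · left
        have h2 : (Z j₀ : ℝ) = h := by
          rw [h1, ← hh]; push_cast; rfl
        rw [h2]
        push_cast
        ring
      · right
        have h2 : (Z j₀ : ℝ) = -(h : ℝ) := by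
          rw [h1, ← hh]; push_cast; rfl
        rw [h2]
        push_cast
        ring)
    refine g1.trans ?_
    rw [hW', Real.exp_neg, ← div_eq_mul_inv, le_div_iff₀ (Real.exp_pos _)]
    calc W' * Real.exp (3 * y) ≤ W' * 2 ^ n' := by gcongr
      _ = 2 ^ n' * W' := by ring
      _ ≤ R := hW'R
  have hmain := box_explicit n δ hδ0 hδ1 K hK3 hc ℕ (Ioc 0 R)
    (fun r j => x * (r : ℝ) ^ ((j : ℕ) + 1)) W hW0 hsum p q hpq
  have hset : {r : ℕ | 1 ≤ r ∧ r ≤ R ∧ ∀ j : Fin n, p j ≤ Int.fract (x * (r : ℝ) ^ ((j : ℕ) + 1)) ∧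
      Int.fract (x * (r : ℝ) ^ ((j : ℕ) + 1)) < q j} =
      (((Ioc 0 R).filter fun r : ℕ => ∀ j : Fin n, p j ≤ Int.fract (x * (r : ℝ) ^ ((j : ℕ) + 1)) ∧
      Int.fract (x * (r : ℝ) ^ ((j : ℕ) + 1)) < q j : Finset ℕ) : Set ℕ) := by
    ext r
    simp only [Set.mem_setOf_eq, coe_filter, mem_Ioc]
    constructor
    · rintro ⟨h1, h2, h3⟩; exact ⟨⟨by omega, h2⟩, h3⟩
    · rintro ⟨⟨h1, h2⟩, h3⟩; exact ⟨by omega, h2, h3⟩
  rw [hset, Set.ncard_coe_finset]
  rw [Nat.card_Ioc, Nat.sub_zero] at hmain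
  refine hmain.trans ?_
  rw [← hy]
  have hR0 : (0 : ℝ) ≤ R := Nat.cast_nonneg _
  -- the first term
  have t1 : (1 + 9 * δ) ^ n - 1 ≤ Real.exp (-y) / 2 := by
    have h1 : (1 + 9 * δ) ^ n ≤ Real.exp (n * (9 * δ)) := by
      rw [Real.exp_nat_mul]
      apply pow_le_pow_left₀ (by positivity)
      have := Real.add_one_le_exp (9 * δ)
      linarith
    have h2 : n * (9 * δ) ≤ Real.exp (-y) / 4 := by
      have h3 : δ = Real.exp (-y) * Real.exp (-y) := by
        rw [hδ, ← Real.exp_add]; congr 1; ring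
      have h4 : 36 * n * Real.exp (-y) ≤ 1 := by
        have h5 : 36 * (n : ℝ) ≤ Real.exp y := by
          have h6 := Real.add_one_le_exp y
          have : 36 * (n : ℝ) ≤ n * n := by nlinarith
          linarith
        calc 36 * n * Real.exp (-y) ≤ Real.exp y * Real.exp (-y) := by gcongr
          _ = 1 := by rw [← Real.exp_add, add_neg_cancel, Real.exp_zero]
      rw [h3]
      have h7 : 0 < Real.exp (-y) := Real.exp_pos _
      nlinarith
    have h8 : Real.exp (-y) ≤ 1 := Real.exp_le_one_iff.2 (by linarith)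
    have h9 : 0 ≤ n * (9 * δ) := by positivity
    have h10 : Real.exp (n * (9 * δ)) ≤ 1 + 2 * (n * (9 * δ)) := by
      have := Real.exp_bound_div_one_sub_of_interval h9 (by linarith)
      refine this.trans ?_
      rw [div_le_iff₀ (by linarith)]
      nlinarith
    linarith
  -- the second term
  have t2 : (3 * (6 + 2 * Real.log K)) ^ n * W ≤ Real.exp (-y) / 2 * R := by
    have h1 : 3 * (6 + 2 * Real.log K) ≤ 48 * y := by linarith
    have h2 : (48 * y) ^ n ≤ Real.exp y := by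
      have hy0 : 0 < y := by linarith
      have h3 : 48 * y = Real.exp (Real.log 48 + a * Real.log n) := by
        rw [Real.exp_add, Real.exp_log (by norm_num), Real.exp_nat_mul, Real.exp_log hn0, hy]
      rw [h3, ← Real.exp_nat_mul]
      apply Real.exp_le_exp.2
      calc (n : ℝ) * (Real.log 48 + a * Real.log n) ≤ n * n := by gcongr
        _ ≤ y := hny
    have h4 : (3 * (6 + 2 * Real.log K)) ^ n ≤ Real.exp y := by
      refine le_trans ?_ h2
      apply pow_le_pow_left₀ (by positivity) h1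
    calc (3 * (6 + 2 * Real.log K)) ^ n * W ≤ Real.exp y * (R * Real.exp (-(3 * y))) := by
          rw [hW'] at hW0 ⊢
          exact mul_le_mul_of_nonneg_right h4 hW0
      _ = Real.exp (-y) * Real.exp (-y) * R := by
          have : Real.exp (-y) * Real.exp (-y) = Real.exp y * Real.exp (-(3 * y)) := by
            rw [← Real.exp_add, ← Real.exp_add]; congr 1; ring
          rw [this]; ring
      _ ≤ Real.exp (-y) * (1 / 2) * R := by
          have h5 : Real.exp (-y) ≤ 1 / 2 := by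
            have h6 : Real.exp (-y) ≤ Real.exp (-1) := Real.exp_le_exp.2 (by linarith)
            have h7 : Real.exp (-1) ≤ 1 / 2 := by
              rw [Real.exp_neg, inv_eq_one_div]
              apply one_div_le_one_div_of_le (by norm_num)
              have := Real.exp_one_gt_d9; linarith
            linarith
          gcongr
      _ = Real.exp (-y) / 2 * R := by ring
  calc ((1 + 9 * δ) ^ n - 1) * (R : ℝ) + (3 * (6 + 2 * Real.log K)) ^ n * W ≤
        Real.exp (-y) / 2 * R + Real.exp (-y) / 2 * R := add_le_add (by gcongr) t2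
    _ = Real.exp (-y) * R := by ring

end Pool.Agent.Helper478.Rand
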